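import Pool.Agent.RCM.StmtsA

/-! Row STP of squad RCA: one submodularity step. -/

set_option autoImplicit false

namespace Pool.Agent.RCM.H92

open Set

universe u

theorem stp (hRRB : RrbStmt.{u}) : StpStmt.{u} := by
  intro E _ M L Z T P t m w hI hTP hPZ hT hZ hr
  have h1 := (hRRB E M (L ∪ (Z ∩ T) ∪ P) ((L ∪ Z ∪ P) ∩ (L ∪ T ∪ P))).1 (by
    intro x hx
    simp only [Set.mem_union, Set.mem_inter_iff] at hx ⊢
    tauto)
  have h2 := (hRRB E M (L ∪ Z ∪ P) (L ∪ T ∪ P)).2.1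
  have h3 := (hRRB E M (T ∪ (P ∪ (Z \ T))) ((L ∪ Z ∪ P) ∪ (L ∪ T ∪ P))).1 (by
    intro x hx
    simp only [Set.mem_union, Set.mem_sdiff] at hx ⊢
    tauto)
  have h4 := (hRRB E M (T ∪ (P ∪ (Z \ T))) ∅).2.2.2.1 hI
  have h5 : (T ∪ (P ∪ (Z \ T))).ncard = t + (P.ncard + w) := by
    rw [Set.ncard_union_eq ?_ (Set.toFinite _) (Set.toFinite _),
      Set.ncard_union_eq hPZ (Set.toFinite _) (Set.toFinite _), hT, hZ]
    rw [Set.disjoint_union_right]
    exact ⟨hTP, Set.disjoint_sdiff_right⟩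
  omega

end Pool.Agent.RCM.H92
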